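import Pool.Agent.Helper1.PD.Defs

/-! The density of typical preimages is close to the limiting density on average. -/

namespace Pool.Agent.Helper44.PD

open Pool.Agent.Helper3.ND Pool.Agent.Helper3.TD Pool.Agent.Helper1.PD

theorem rpow_400 {x : ℝ} (hx : 10 ^ 6 ≤ x) : x ^ (11 / 20 : ℝ) ≤ x / 400 := by
  have hx0 : 0 < x := by linarith
  have h1 : (400 : ℝ) ≤ x ^ (9 / 20 : ℝ) := by
    have h2 : (400 : ℝ) ≤ ((10 : ℝ) ^ 6) ^ (9 / 20 : ℝ) := by
      have h3 : (400 : ℝ) = ((400 : ℝ) ^ (20 : ℝ)) ^ (1 / 20 : ℝ) := by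
        rw [← Real.rpow_mul (by norm_num)]; norm_num
      have h4 : ((10 : ℝ) ^ 6) ^ (9 / 20 : ℝ) = (((10 : ℝ) ^ 6) ^ (9 : ℝ)) ^ (1 / 20 : ℝ) := by
        rw [← Real.rpow_mul (by norm_num)]; norm_num
      rw [h3, h4]
      apply Real.rpow_le_rpow (by positivity) _ (by norm_num)
      have e1 : (400 : ℝ) ^ (20 : ℝ) = (400 : ℝ) ^ 20 := by norm_cast
      have e2 : ((10 : ℝ) ^ 6) ^ (9 : ℝ) = ((10 : ℝ) ^ 6) ^ 9 := by norm_cast
      rw [e1, e2]
      norm_num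
    exact le_trans h2 (Real.rpow_le_rpow (by positivity) hx (by norm_num))
  have h2 : x ^ (11 / 20 : ℝ) * x ^ (9 / 20 : ℝ) = x := by
    rw [← Real.rpow_add hx0]; norm_num
  have h3 : 0 < x ^ (11 / 20 : ℝ) := Real.rpow_pos_of_pos hx0 _
  nlinarith

/-- typical numbers of odd steps are almost one half -/
theorem typ_bound {r k : ℕ} (hr : 10 ^ 6 ≤ r) (h : TypK r k) : 199 * r ≤ 400 * k ∧ 400 * k ≤ 201 * r := by
  unfold TypK at h
  have h1 := rpow_400 (show (10 ^ 6 : ℝ) ≤ r by exact_mod_cast hr)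
  have h2 := le_trans h h1
  rw [abs_le] at h2
  constructor
  · have : (199 : ℝ) * r ≤ 400 * k := by linarith
    exact_mod_cast this
  · have : (400 : ℝ) * k ≤ 201 * r := by linarith
    exact_mod_cast this

theorem typ_J : ∃ R0 : ℕ, ∀ r, R0 ≤ r → ∀ k, TypK r k → Jt r k :=
  ⟨10 ^ 6, fun _ hr _ hk => typ_bound hr hk⟩

theorem fr_per : ∃ R0 : ℕ, ∀ r, R0 ≤ r → ∀ K, 201 * r ≤ 400 * K → Per K (fr r) := by
  refine ⟨10 ^ 6, ?_⟩
  intro r hr K hK x
  unfold fr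
  apply Finset.sum_congr rfl
  intro k hk
  have h1 := typ_bound hr (mem_KS.mp hk).2.2
  exact (D_per k r k (fun _ => True)).le (show k ≤ K by omega) x

theorem KS_eq {r m : ℕ} (hr : 10 ^ 6 ≤ r) (hm : 5 * m ≤ 2 * r) : KS r 0 = KS r m := by
  ext k
  rw [mem_KS, mem_KS]
  constructor
  · rintro ⟨h1, _, h3⟩
    have := typ_bound hr h3
    exact ⟨h1, by omega, h3⟩
  · rintro ⟨h1, _, h3⟩
    exact ⟨h1, Nat.zero_le _, h3⟩

theorem exp_lin (q : ℕ) {m : ℝ} (hm : 0 < m) : Real.exp (-(m / 6)) ≤ (Nat.factorial q : ℝ) * 6 ^ q / m ^ q := by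
  have h := Real.pow_div_factorial_le_exp (m / 6) (by positivity) q
  rw [Real.exp_neg, le_div_iff₀ (by positivity), inv_mul_le_iff₀ (Real.exp_pos _)]
  rw [div_le_iff₀ (by positivity), div_pow, div_le_iff₀ (by positivity)] at h
  linarith

theorem fr_dl (q : ℕ) : ∃ C : ℝ, 0 < C ∧ ∃ m0 : ℕ, ∀ m r K : ℕ, m0 ≤ m → 10 * m ≤ r → r ≤ 1000 * m → 201 * r ≤ 400 * K →
    Av K (fun x => |fr r x - dl m (3 * m) x|) ≤ C / (m : ℝ) ^ q := by
  classical
  obtain ⟨C, hC, n0, hn0, H⟩ := mixingK (q + 1)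
  obtain ⟨F, hF, hF0⟩ : ∃ F : ℝ, F = (Nat.factorial (10 * q) : ℝ) ∧ 0 < F := ⟨_, rfl, by positivity⟩
  obtain ⟨G, hG, hG0⟩ : ∃ G : ℝ, G = (Nat.factorial q : ℝ) * 6 ^ q ∧ 0 < G := ⟨_, rfl, by positivity⟩
  refine ⟨1000 * C + (2 * G + 2 * F), by positivity, max n0 (10 ^ 5), ?_⟩
  intro m r K hm hmr hrm hK
  have hmn : n0 ≤ m := le_trans (le_max_left _ _) hm
  have hm5 : 10 ^ 5 ≤ m := le_trans (le_max_right _ _) hm
  have hr6 : 10 ^ 6 ≤ r := by omega
  have hm0 : (0 : ℝ) < m := by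
    have : 0 < m := by omega
    exact_mod_cast this
  have hm1 : (1 : ℝ) ≤ m := by
    have : 1 ≤ m := by omega
    exact_mod_cast this
  have hr1 : (1 : ℝ) ≤ r := by
    have : 1 ≤ r := by omega
    exact_mod_cast this
  have hmrr : (m : ℝ) ≤ r := by
    have : m ≤ r := by omega
    exact_mod_cast this
  obtain ⟨s1, hs1⟩ : ∃ s1, r = s1 + 3 * m := ⟨r - 3 * m, by omega⟩
  obtain ⟨h, hh⟩ : ∃ h : ℤ → ℝ, h = fun M => ∑ k ∈ KS (s1 + 3 * m) m, D m (s1 + 3 * m) k (fun r => ¬ m ≤ od (3 * m) (yy s1 (3 * m) r : ℤ)) M +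
      ∑ k ∈ Finset.range (s1 + 3 * m + 1) \ KS (s1 + 3 * m) m, D m (s1 + 3 * m) k (fun r => m ≤ od (3 * m) (yy s1 (3 * m) r : ℤ)) M := ⟨_, rfl⟩
  have hhp : Per m h := by
    intro M
    rw [hh]
    simp only
    congr 1
    · exact Finset.sum_congr rfl (fun k _ => D_per m (s1 + 3 * m) k _ M)
    · exact Finset.sum_congr rfl (fun k _ => D_per m (s1 + 3 * m) k _ M)
  have hAvh : Av m h ≤ 2 * Real.exp (-(((3 * m : ℕ) : ℝ) / 18)) + 2 * Real.exp (-(((s1 + 3 * m : ℕ) : ℝ) ^ (1 / 10 : ℝ))) := by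
    rw [hh, Av_add, Av_sum, Av_sum]
    apply add_le_add
    · rw [Finset.sum_congr rfl (fun k _ => Av_D m (s1 + 3 * m) k _)]
      exact few_odd m s1 (3 * m) le_rfl (by omega) _
    · rw [Finset.sum_congr rfl (fun k _ => Av_D m (s1 + 3 * m) k _)]
      refine le_trans (mass_set (s1 + 3 * m) _ _) ?_
      exact card_out (by omega) (by omega) _ (fun k hk => (Finset.mem_sdiff.mp hk).2)
  have hpt : ∀ x : ℤ, |fr r x - dl m (3 * m) x| ≤
      (∑ k ∈ KS r m, |D k r k (fun _ => True) x - D m r k (fun _ => True) x|) + h x := by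
    intro x
    have e1 := D_dl (m := m) (s1 := s1) (s := 3 * m) x
    rw [← hs1] at e1
    have e2 : fr r x - dl m (3 * m) x = (∑ k ∈ KS r m, (D k r k (fun _ => True) x - D m r k (fun _ => True) x)) +
        (∑ k ∈ KS r m, D m r k (fun _ => True) x - dl m (3 * m) x) := by
      unfold fr
      rw [KS_eq hr6 (show 5 * m ≤ 2 * r by omega), Finset.sum_sub_distrib]
      ring
    rw [e2]
    refine le_trans (abs_add_le _ _) (add_le_add (Finset.abs_sum_le_sum_abs _ _) ?_)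
    rw [hh, ← hs1]
    exact e1
  have hA := le_trans (Av_mono (N := K) hpt) (le_of_eq (Av_add K _ _))
  rw [Av_sum] at hA
  have hA1 : ∀ k ∈ KS r m, Av K (fun x => |D k r k (fun _ => True) x - D m r k (fun _ => True) x|) =
      Av k (fun x => |D k r k (fun _ => True) x - D m r k (fun _ => True) x|) := by
    intro k hk
    obtain ⟨_, hmk, htk⟩ := mem_KS.mp hk
    have h1 := typ_bound hr6 htk
    apply Av_le _ (show k ≤ K by omega)
    intro x
    simp only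
    rw [D_per k r k _ x, (D_per m r k (fun _ => True)).le hmk x]
  rw [Finset.sum_congr rfl hA1, Av_le hhp (show m ≤ K by omega)] at hA
  have hM := H r m hmn (by omega)
  rw [← hs1] at hAvh
  have b1 : C * (r : ℝ) ^ (1 / 20 : ℝ) / (m : ℝ) ^ (q + 1 + 1) ≤ 1000 * C / (m : ℝ) ^ q := by
    have h1 : (r : ℝ) ^ (1 / 20 : ℝ) ≤ r := by
      calc (r : ℝ) ^ (1 / 20 : ℝ) ≤ (r : ℝ) ^ (1 : ℝ) := Real.rpow_le_rpow_of_exponent_le hr1 (by norm_num)
        _ = r := Real.rpow_one _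
    have h2 : (r : ℝ) ≤ 1000 * m := by exact_mod_cast hrm
    rw [div_le_div_iff₀ (by positivity) (by positivity)]
    have h3 : (m : ℝ) ^ (q + 1 + 1) = m ^ q * m * m := by ring
    rw [h3]
    have h4 : (0 : ℝ) < m ^ q := by positivity
    calc C * (r : ℝ) ^ (1 / 20 : ℝ) * m ^ q ≤ C * (1000 * m) * m ^ q := by
          gcongr
          linarith
      _ = 1000 * C * (m ^ q * m * 1) := by ring
      _ ≤ 1000 * C * (m ^ q * m * m) := by gcongr
  have b2 : Real.exp (-(((3 * m : ℕ) : ℝ) / 18)) ≤ G / (m : ℝ) ^ q := by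
    have h1 := exp_lin q hm0
    rw [← hG] at h1
    refine le_trans (le_of_eq ?_) h1
    congr 1
    push_cast
    ring
  have b3 : Real.exp (-((r : ℝ) ^ (1 / 10 : ℝ))) ≤ F / (m : ℝ) ^ q := by
    have h1 := exp_tailK q hr1
    rw [← hF] at h1
    refine le_trans h1 ?_
    apply div_le_div_of_nonneg_left hF0.le (by positivity)
    exact pow_le_pow_left₀ hm0.le hmrr q
  calc _ ≤ _ := hA
    _ ≤ 1000 * C / (m : ℝ) ^ q + (2 * (G / (m : ℝ) ^ q) + 2 * (F / (m : ℝ) ^ q)) := by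
        apply add_le_add (le_trans hM b1)
        refine le_trans hAvh ?_
        linarith
    _ = _ := by ring

end Pool.Agent.Helper44.PD
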